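import Pool.Agent.TH607.GW.Ext
import Pool.Agent.TH607.GW.Hull

/-!
(Copy of the file of helper215 in `Pool/Agent/GW215/`, with an arbitrary universe.)

The dual of a module with respect to an injective module over its endomorphism ring.
-/

set_option autoImplicit false

universe u

namespace Pool.Agent.TH607.GW

open scoped BigOperators
open MulOpposite

variable {R S : Type u} [Ring R] [Ring S]

/-- multiplication by a scalar is linear over the endomorphism ring. -/
def mulR {G : Type u} [AddCommGroup G] [Module R G] (r : R) : G →ₗ[Module.End R G] G where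
  toFun g := r • g
  map_add' := smul_add r
  map_smul' f g := by
    show r • f g = f (r • g)
    rw [map_smul]

@[simp] theorem mulR_apply {G : Type u} [AddCommGroup G] [Module R G] (r : R) (g : G) :
    mulR r g = r • g := rfl

/-- The dual. -/
def Dual (_e : S ≃+* Rᵐᵒᵖ) (G I : Type u) [AddCommGroup G] [Module R G] [AddCommGroup I]
    [Module (Module.End R G) I] : Type u :=
  G →ₗ[Module.End R G] I

section

variable (e : S ≃+* Rᵐᵒᵖ) {G I : Type u} [AddCommGroup G] [Module R G] [AddCommGroup I]
    [Module (Module.End R G) I]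

instance : AddCommGroup (Dual e G I) :=
  inferInstanceAs (AddCommGroup (G →ₗ[Module.End R G] I))

variable {e}

/-- the underlying linear map. -/
def Dual.ev (z : Dual e G I) : G →ₗ[Module.End R G] I := z

theorem Dual.ext {z z' : Dual e G I} (h : ∀ g, z.ev g = z'.ev g) : z = z' :=
  LinearMap.ext h

theorem Dual.ev_add (z z' : Dual e G I) (g : G) : (z + z').ev g = z.ev g + z'.ev g := rfl

theorem Dual.ev_sub (z z' : Dual e G I) (g : G) : (z - z').ev g = z.ev g - z'.ev g := rfl

theorem Dual.ev_zero (g : G) : (0 : Dual e G I).ev g = 0 := rfl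

theorem Dual.ev_endo (z : Dual e G I) (f : Module.End R G) (g : G) :
    z.ev (f g) = f • z.ev g := z.ev.map_smul f g

instance : Module S (Dual e G I) where
  smul s z := (z.ev ∘ₗ mulR (unop (e s)) : G →ₗ[Module.End R G] I)
  one_smul z := Dual.ext fun g => by
    show z.ev ((unop (e 1)) • g) = z.ev g
    rw [map_one, unop_one, one_smul]
  mul_smul s t z := Dual.ext fun g => by
    show z.ev ((unop (e (s * t))) • g) = z.ev ((unop (e t)) • ((unop (e s)) • g))
    rw [map_mul, unop_mul, mul_smul]
  smul_zero s := Dual.ext fun g => rfl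
  smul_add s z z' := Dual.ext fun g => rfl
  add_smul s t z := Dual.ext fun g => by
    show z.ev ((unop (e (s + t))) • g) = z.ev ((unop (e s)) • g) + z.ev ((unop (e t)) • g)
    rw [map_add, unop_add, add_smul, map_add]
  zero_smul z := Dual.ext fun g => by
    show z.ev ((unop (e 0)) • g) = 0
    rw [map_zero, unop_zero, zero_smul, map_zero]

theorem Dual.ev_smul (s : S) (z : Dual e G I) (g : G) :
    (s • z).ev g = z.ev ((unop (e s)) • g) := rfl

theorem Dual.ev_sum {ι : Type*} (s : Finset ι) (z : ι → Dual e G I) (g : G) :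
    (∑ i ∈ s, z i).ev g = ∑ i ∈ s, (z i).ev g := by
  classical
  induction s using Finset.induction_on with
  | empty => simp [Dual.ev_zero]
  | insert a s ha ih => rw [Finset.sum_insert ha, Finset.sum_insert ha, Dual.ev_add, ih]

/-- the anti-homomorphism from `R` to `S`. -/
def sg (e : S ≃+* Rᵐᵒᵖ) (r : R) : S := e.symm (op r)

theorem Dual.ev_sg (r : R) (z : Dual e G I) (g : G) : (sg e r • z).ev g = z.ev (r • g) := by
  rw [Dual.ev_smul]
  simp [sg]

/-- Dual systems. -/
def DSat {α β ι : Type} [Fintype α] (e : S ≃+* Rᵐᵒᵖ) (A : α → ι → R) (B : α → β → R)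
    {N : Type u} [AddCommGroup N] [Module S N] (u : ι → N) : Prop :=
  ∃ w : α → N, (∀ k, u k = ∑ i, sg e (A i k) • w i) ∧ ∀ j, ∑ i, sg e (B i j) • w i = 0

theorem DSat.map {α β ι : Type} [Fintype α] {A : α → ι → R} {B : α → β → R}
    {N N' : Type u} [AddCommGroup N] [Module S N] [AddCommGroup N'] [Module S N'] {u : ι → N}
    (h : DSat e A B u) (l : N →ₗ[S] N') : DSat e A B (fun k => l (u k)) := by
  obtain ⟨w, h1, h2⟩ := h
  refine ⟨fun i => l (w i), fun k => ?_, fun j => ?_⟩
  · show l (u k) = _
    rw [h1 k]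
    simp [map_sum]
  · have := congrArg l (h2 j)
    simpa [map_sum] using this

theorem DSat.perp {α β ι : Type} [Fintype α] [Fintype β] [Fintype ι] {A : α → ι → R}
    {B : α → β → R} {u : ι → Dual e G I} (h : DSat e A B u) {g : ι → G} (hg : g ∈ Sat A B G) :
    ∑ k, (u k).ev (g k) = 0 := by
  obtain ⟨w, h1, h2⟩ := h
  obtain ⟨y, hy⟩ := (mem_Sat A B g).1 hg
  calc ∑ k, (u k).ev (g k) = ∑ k, ∑ i, (w i).ev (A i k • g k) := by
        refine Finset.sum_congr rfl fun k _ => ?_
        rw [h1 k, Dual.ev_sum]
        exact Finset.sum_congr rfl fun i _ => Dual.ev_sg _ _ _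
    _ = ∑ i, (w i).ev (∑ k, A i k • g k) := by
        rw [Finset.sum_comm]
        simp [map_sum]
    _ = ∑ i, (w i).ev (∑ j, B i j • y j) :=
        Finset.sum_congr rfl fun i _ => congrArg _ (hy i)
    _ = ∑ j, (∑ i, sg e (B i j) • w i).ev (y j) := by
        simp only [map_sum, Dual.ev_sum, Dual.ev_sg]
        rw [Finset.sum_comm]
    _ = 0 := by simp [h2, Dual.ev_zero]

theorem dsat_of_perp (hI : Module.Baer (Module.End R G) I) {α β ι : Type} [Fintype α] [Fintype β]
    [Fintype ι] {A : α → ι → R} {B : α → β → R} {u : ι → Dual e G I}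
    (h : ∀ g ∈ Sat A B G, ∑ k, (u k).ev (g k) = 0) : DSat e A B u := by
  classical
  let f : ((ι → G) × (β → G)) →ₗ[Module.End R G] (α → G) :=
    LinearMap.pi fun i =>
      (∑ k, mulR (A i k) ∘ₗ LinearMap.proj k) ∘ₗ LinearMap.fst _ _ _ -
        (∑ j, mulR (B i j) ∘ₗ LinearMap.proj j) ∘ₗ LinearMap.snd _ _ _
  let g : ((ι → G) × (β → G)) →ₗ[Module.End R G] I :=
    (∑ k, (u k).ev ∘ₗ LinearMap.proj k) ∘ₗ LinearMap.fst _ _ _
  have hf : ∀ x i, f x i = ∑ k, A i k • x.1 k - ∑ j, B i j • x.2 j := by
    intro x i
    simp [f]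
  have hg : ∀ x, g x = ∑ k, (u k).ev (x.1 k) := by
    intro x
    simp [g]
  obtain ⟨q, hq⟩ := baer_factor hI f g (by
    intro x hx
    rw [hg]
    apply h
    rw [mem_Sat]
    refine ⟨x.2, fun i => ?_⟩
    have := congrFun hx i
    rw [hf] at this
    exact sub_eq_zero.1 this)
  let w : α → Dual e G I := fun i =>
    (q ∘ₗ LinearMap.single (Module.End R G) (fun _ => G) i : G →ₗ[Module.End R G] I)
  have hw : ∀ (c : α → R) (x : G), (∑ i, sg e (c i) • w i).ev x = q (fun i => c i • x) := by
    intro c x
    rw [Dual.ev_sum]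
    have h1 : (fun i => c i • x) = ∑ i, Pi.single i (c i • x) :=
      (Finset.univ_sum_single _).symm
    rw [h1, map_sum]
    exact Finset.sum_congr rfl fun i _ => Dual.ev_sg _ _ _
  refine ⟨w, fun k => ?_, fun j => ?_⟩
  · apply Dual.ext
    intro x
    rw [hw]
    have h1 := hq (Pi.single k x, 0)
    rw [hg] at h1
    have h2 : f (Pi.single k x, 0) = fun i => A i k • x := by
      funext i
      rw [hf]
      simp [Pi.single_apply, smul_ite, Finset.sum_ite_eq']
    rw [h2] at h1
    rw [h1]
    simp only
    rw [Finset.sum_eq_single k]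
    · simp
    · intro b _ hb
      simp [Pi.single_apply, hb]
    · simp
  · apply Dual.ext
    intro x
    rw [hw, Dual.ev_zero]
    have h1 := hq (0, Pi.single j (-x))
    rw [hg] at h1
    have h2 : f (0, Pi.single j (-x)) = fun i => B i j • x := by
      funext i
      rw [hf]
      simp only [Pi.zero_apply, smul_zero, Finset.sum_const_zero, zero_sub]
      rw [Finset.sum_eq_single j]
      · simp
      · intro b _ hb
        simp [Pi.single_apply, hb]
      · simp
    rw [h2] at h1
    rw [h1]
    simp

/-- Endomorphisms of the dual preserve all relations `∑ z_k(g_k) = 0`. -/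
theorem star [IsArtinian (Module.End R G) G] (hI : Module.Baer (Module.End R G) I) {ι : Type}
    [Fintype ι] (l : Module.End S (Dual e G I)) (u : ι → Dual e G I) (g : ι → G)
    (h : ∑ k, (u k).ev (g k) = 0) : ∑ k, (l (u k)).ev (g k) = 0 := by
  obtain ⟨α, β, _, _, A, B, hg, hAB⟩ := exists_system (R := R) g
  have h1 : DSat e A B u := by
    refine dsat_of_perp hI fun y hy => ?_
    obtain ⟨f, hf⟩ := hAB y hy
    simp only [← hf, Dual.ev_endo]
    rw [← Finset.smul_sum, h, smul_zero]
  exact (h1.map l).perp hg

theorem star' [IsArtinian (Module.End R G) G] (hI : Module.Baer (Module.End R G) I) {ι : Type*}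
    [Fintype ι] (l : Module.End S (Dual e G I)) (u : ι → Dual e G I) (g : ι → G)
    (h : ∑ k, (u k).ev (g k) = 0) : ∑ k, (l (u k)).ev (g k) = 0 := by
  have e' := (Fintype.equivFin ι).symm
  have h1 := star hI l (fun k => u (e' k)) (fun k => g (e' k)) (by
    rw [← h]
    exact e'.sum_comp (fun k => (u k).ev (g k)))
  rw [← e'.sum_comp (fun k => (l (u k)).ev (g k))]
  exact h1

/-- post-composition with an endomorphism of `I`. -/
def post (e : S ≃+* Rᵐᵒᵖ) (θ : I →ₗ[Module.End R G] I) : Module.End S (Dual e G I) where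
  toFun z := (θ ∘ₗ z.ev : G →ₗ[Module.End R G] I)
  map_add' _ _ := Dual.ext fun _ => θ.map_add _ _
  map_smul' _ _ := rfl

theorem post_apply (θ : I →ₗ[Module.End R G] I) (z : Dual e G I) (g : G) :
    (post e θ z).ev g = θ (z.ev g) := rfl

/-- Every endomorphism of the dual is induced by an endomorphism of `I`. -/
theorem exists_post [IsArtinian (Module.End R G) G] (hI : Module.Baer (Module.End R G) I)
    (l : Module.End S (Dual e G I)) : ∃ θ : I →ₗ[Module.End R G] I, l = post e θ := by
  classical
  let f : (Dual e G I →₀ G) →ₗ[Module.End R G] I :=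
    Finsupp.lsum ℕ (fun z : Dual e G I => z.ev)
  let g : (Dual e G I →₀ G) →ₗ[Module.End R G] I :=
    Finsupp.lsum ℕ (fun z : Dual e G I => (l z).ev)
  obtain ⟨θ, hθ⟩ := baer_factor hI f g (by
    intro c hc
    have h1 : ∑ k : c.support, ((k : Dual e G I)).ev (c k) = 0 := by
      rw [Finset.sum_coe_sort c.support (fun z => z.ev (c z))]
      exact hc
    have h2 := star' hI l (fun k : c.support => (k : Dual e G I)) (fun k => c k) h1
    rw [Finset.sum_coe_sort c.support (fun z => (l z).ev (c z))] at h2
    exact h2)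
  refine ⟨θ, LinearMap.ext fun z => Dual.ext fun x => ?_⟩
  rw [post_apply]
  have h1 := hθ (Finsupp.single z x)
  have h2 : f (Finsupp.single z x) = z.ev x := by
    simp [f]
  have h3 : g (Finsupp.single z x) = (l z).ev x := by
    simp [g]
  rw [h2, h3] at h1
  exact h1.symm

/-- The annihilator in `G` of a set of functionals. -/
def perpG (W : Submodule (Module.End S (Dual e G I)) (Dual e G I)) :
    Submodule (Module.End R G) G where
  carrier := {g | ∀ z ∈ W, z.ev g = 0}
  add_mem' {g g'} h h' z hz := by rw [map_add, h z hz, h' z hz, add_zero]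
  zero_mem' z _ := map_zero _
  smul_mem' f g h z hz := by rw [map_smul, h z hz, smul_zero]

theorem mem_of_perp [IsArtinian (Module.End R G) G] (hI : Module.Baer (Module.End R G) I)
    (W : Submodule (Module.End S (Dual e G I)) (Dual e G I)) (z : Dual e G I)
    (h : ∀ g ∈ perpG W, z.ev g = 0) : z ∈ W := by
  classical
  let K : Finset (Dual e G I) → Submodule (Module.End R G) G :=
    fun s => s.inf fun w => LinearMap.ker w.ev
  have hT : {U | ∃ s : Finset (Dual e G I), (∀ w ∈ s, w ∈ W) ∧ U = K s}.Nonempty :=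
    ⟨_, ∅, by simp, rfl⟩
  obtain ⟨U, ⟨s, hs, rfl⟩, hmin⟩ := IsArtinian.set_has_minimal _ hT
  have h1 : ∀ w ∈ W, K s ≤ LinearMap.ker w.ev := by
    intro w hw
    have h2 : K (insert w s) ≤ K s := Finset.inf_mono (Finset.subset_insert _ _)
    have h3 : K (insert w s) = K s := by
      rcases h2.lt_or_eq with h | h
      · exact (hmin _ ⟨insert w s, by
          intro x hx
          rcases Finset.mem_insert.1 hx with rfl | hx
          · exact hw
          · exact hs x hx, rfl⟩ h).elim
      · exact h
    rw [← h3]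
    exact Finset.inf_le (Finset.mem_insert_self _ _)
  let f : G →ₗ[Module.End R G] (s → I) := LinearMap.pi fun w => (w : Dual e G I).ev
  obtain ⟨q, hq⟩ := baer_factor hI f z.ev (by
    intro x hx
    apply h
    intro w hw
    apply h1 w hw
    rw [Submodule.mem_finsetInf]
    intro v hv
    exact congrFun hx ⟨v, hv⟩)
  have hz : z = ∑ w : s, post e (q ∘ₗ LinearMap.single (Module.End R G) (fun _ => I) w)
      (w : Dual e G I) := by
    apply Dual.ext
    intro x
    rw [Dual.ev_sum, ← hq x]
    have h2 : f x = ∑ w : s, Pi.single w ((w : Dual e G I).ev x) :=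
      (Finset.univ_sum_single _).symm
    rw [h2, map_sum]
    rfl
  rw [hz]
  exact Submodule.sum_mem _ fun w _ => W.smul_mem (post e _) (hs w w.2)

theorem perpG_strictAnti [IsArtinian (Module.End R G) G] (hI : Module.Baer (Module.End R G) I) :
    StrictAnti (perpG (e := e) (G := G) (I := I)) := by
  intro W W' hlt
  have hle : perpG W' ≤ perpG W := fun g hg z hz => hg z (hlt.le hz)
  refine lt_of_le_of_ne hle fun heq => ?_
  apply hlt.not_ge
  intro z hz
  apply mem_of_perp hI W z
  intro g hg
  rw [← heq] at hg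
  exact hg z hz

/-- The dual has finite length over its endomorphism ring. -/
theorem dual_finiteLength (h : IsFiniteLength (Module.End R G) G)
    (hI : Module.Baer (Module.End R G) I) :
    IsFiniteLength (Module.End S (Dual e G I)) (Dual e G I) := by
  obtain ⟨h1, h2⟩ := isFiniteLength_iff_isNoetherian_isArtinian.1 h
  rw [isFiniteLength_iff_isNoetherian_isArtinian]
  have hanti := perpG_strictAnti (e := e) (G := G) (I := I) hI
  constructor
  · rw [isNoetherian_iff']
    have : WellFoundedLT (Submodule (Module.End R G) G) := inferInstance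
    exact hanti.wellFoundedGT
  · have : WellFoundedGT (Submodule (Module.End R G) G) := inferInstance
    exact hanti.wellFoundedLT

end

end Pool.Agent.TH607.GW
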