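import Mathlib

/-!
(Copy of the file of helper215 in `Pool/Agent/GW215/`, with an arbitrary universe.)

Solvable systems in modules over a ring, and the extension lemma for modules which are artinian over
their endomorphism ring.
-/

set_option autoImplicit false

universe u

namespace Pool.Agent.TH607.GW

open scoped BigOperators

section Sol

variable {R : Type u} [Ring R] {M : Type u} [AddCommGroup M] [Module R M]

/-- The system `c = B y` is solvable. -/
def Sol {α β : Type} [Fintype β] (B : α → β → R) (c : α → M) : Prop :=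
  ∃ y : β → M, ∀ i, c i = ∑ j, B i j • y j

/-- Block sum of two systems. -/
def blk {α β α' β' : Type} (B : α → β → R) (B' : α' → β' → R) :
    (α ⊕ α') → (β ⊕ β') → R
  | Sum.inl i, Sum.inl j => B i j
  | Sum.inr i, Sum.inr j => B' i j
  | Sum.inl _, Sum.inr _ => 0
  | Sum.inr _, Sum.inl _ => 0

theorem sol_blk {α β α' β' : Type} [Fintype β] [Fintype β'] (B : α → β → R)
    (B' : α' → β' → R) (c : α → M) (c' : α' → M) :
    Sol (blk B B') (Sum.elim c c') ↔ Sol B c ∧ Sol B' c' := by
  constructor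
  · rintro ⟨y, hy⟩
    refine ⟨⟨fun j => y (Sum.inl j), fun i => ?_⟩, ⟨fun j => y (Sum.inr j), fun i => ?_⟩⟩
    · have := hy (Sum.inl i)
      simpa [Fintype.sum_sum_type, blk] using this
    · have := hy (Sum.inr i)
      simpa [Fintype.sum_sum_type, blk] using this
  · rintro ⟨⟨y, hy⟩, ⟨y', hy'⟩⟩
    refine ⟨Sum.elim y y', fun i => ?_⟩
    rcases i with i | i
    · simpa [Fintype.sum_sum_type, blk] using hy i
    · simpa [Fintype.sum_sum_type, blk] using hy' i

theorem Sol.add {α β : Type} [Fintype β] {B : α → β → R} {c d : α → M}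
    (h : Sol B c) (h' : Sol B d) : Sol B (fun i => c i + d i) := by
  obtain ⟨y, hy⟩ := h
  obtain ⟨z, hz⟩ := h'
  exact ⟨fun j => y j + z j, fun i => by
    simp [hy i, hz i, smul_add, Finset.sum_add_distrib]⟩

theorem Sol.map {M' : Type u} [AddCommGroup M'] [Module R M'] {α β : Type} [Fintype β]
    {B : α → β → R} {c : α → M} (h : Sol B c) (f : M →ₗ[R] M') : Sol B (fun i => f (c i)) := by
  obtain ⟨y, hy⟩ := h
  exact ⟨fun j => f (y j), fun i => by simp [hy i, map_sum]⟩

theorem Sol.neg {α β : Type} [Fintype β] {B : α → β → R} {c : α → M}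
    (h : Sol B c) : Sol B (fun i => - c i) := by
  obtain ⟨y, hy⟩ := h
  exact ⟨fun j => - y j, fun i => by simp [hy i]⟩

theorem sol_zero {α β : Type} [Fintype β] (B : α → β → R) : Sol B (fun _ => (0 : M)) :=
  ⟨fun _ => 0, fun i => by simp⟩

/-- The tuples `g` such that `A g = B y` is solvable. -/
def Sat {α β ι : Type} [Fintype β] [Fintype ι] (A : α → ι → R) (B : α → β → R)
    (M : Type u) [AddCommGroup M] [Module R M] :
    Submodule (Module.End R M) (ι → M) where
  carrier := {g | Sol B (fun i => ∑ k, A i k • g k)}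
  add_mem' {g g'} h h' := by
    have := Sol.add h h'
    simpa [smul_add, Finset.sum_add_distrib] using this
  zero_mem' := by
    have := sol_zero (M := M) B
    simpa using this
  smul_mem' e g h := by
    have := Sol.map h e
    simpa [map_sum] using this

theorem mem_Sat {α β ι : Type} [Fintype β] [Fintype ι] (A : α → ι → R) (B : α → β → R)
    (g : ι → M) : g ∈ Sat A B M ↔ Sol B (fun i => ∑ k, A i k • g k) := Iff.rfl

end Sol

section Extension

variable {R : Type u} [Ring R] {M : Type u} [AddCommGroup M] [Module R M]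
  {G : Type u} [AddCommGroup G] [Module R G]

/-- A submodule of `M × G` all of whose first coordinates satisfy fewer systems than the second
ones. -/
def Good (Γ : Submodule R (M × G)) : Prop :=
  ∀ (α β : Type) [Fintype α] [Fintype β] (B : α → β → R) (c : α → M × G), (∀ i, c i ∈ Γ) →
    Sol B (fun i => (c i).1) → Sol B (fun i => (c i).2)

theorem good_sSup (S : Set (Submodule R (M × G))) (hS : ∀ Γ ∈ S, Good Γ) (hc : IsChain (· ≤ ·) S)
    (hne : S.Nonempty) : Good (sSup S) := by
  intro α β _ _ B c hcm hsol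
  have hdir : DirectedOn (· ≤ ·) S := hc.directedOn
  have h1 : ∀ i, ∃ Γ : S, c i ∈ Γ.1 := by
    intro i
    obtain ⟨Γ, hΓ, hi⟩ := (Submodule.mem_sSup_of_directed hne hdir).1 (hcm i)
    exact ⟨⟨Γ, hΓ⟩, hi⟩
  choose F hF using h1
  have : Nonempty S := hne.to_subtype
  have hd : Directed (· ≤ ·) (fun x : S => x.1) := hdir.directed_val
  obtain ⟨Z, hZ⟩ := hd.finset_le (Finset.univ.image F)
  refine hS Z.1 Z.2 α β B c (fun i => ?_) hsol
  exact hZ (F i) (Finset.mem_image_of_mem _ (Finset.mem_univ i)) (hF i)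

/-- the step: data of a constraint on the image of `m₀`. -/
structure Cons (Γ : Submodule R (M × G)) (m₀ : M) : Type (max 1 u) where
  α : Type
  β : Type
  fα : Fintype α
  fβ : Fintype β
  B : α → β → R
  c : α → M × G
  a : α → Unit → R
  hc : ∀ i, c i ∈ Γ
  hs : Sol B (fun i => (c i).1 + a i () • m₀)

attribute [instance] Cons.fα Cons.fβ

/-- both constraints together. -/
def Cons.join {Γ : Submodule R (M × G)} {m₀ : M} (s t : Cons Γ m₀) : Cons Γ m₀ where
  α := s.α ⊕ t.α
  β := s.β ⊕ t.β
  fα := inferInstance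
  fβ := inferInstance
  B := blk s.B t.B
  c := Sum.elim s.c t.c
  a := Sum.elim s.a t.a
  hc := by
    intro i
    rcases i with i | i
    · exact s.hc i
    · exact t.hc i
  hs := by
    have := (sol_blk s.B t.B (fun i => (s.c i).1 + s.a i () • m₀)
      (fun i => (t.c i).1 + t.a i () • m₀)).2 ⟨s.hs, t.hs⟩
    convert this using 1
    funext i
    rcases i with i | i <;> rfl

theorem Cons.exists_sol {Γ : Submodule R (M × G)} (hΓ : Good Γ) {m₀ : M} (s : Cons Γ m₀) :
    ∃ g : G, Sol s.B (fun i => (s.c i).2 + s.a i () • g) := by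
  obtain ⟨y, hy⟩ := s.hs
  have h1 : Sol (fun (i : s.α) (j : Option s.β) => Option.elim j (- s.a i ()) (fun j => s.B i j))
      (fun i => (s.c i).1) := by
    refine ⟨fun j => Option.elim j m₀ y, fun i => ?_⟩
    rw [Fintype.sum_option]
    simp only [Option.elim]
    rw [← hy i]
    simp
  obtain ⟨z, hz⟩ := hΓ s.α (Option s.β) _ s.c s.hc h1
  refine ⟨z none, fun j => z (some j), fun i => ?_⟩
  have := hz i
  rw [Fintype.sum_option] at this
  simp only [Option.elim] at this
  show (s.c i).2 + s.a i () • z none = _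
  rw [this]
  simp

theorem Cons.join_sol {Γ : Submodule R (M × G)} {m₀ : M} (s t : Cons Γ m₀) (g : G) :
    Sol (s.join t).B (fun i => ((s.join t).c i).2 + (s.join t).a i () • g) ↔
      Sol s.B (fun i => (s.c i).2 + s.a i () • g) ∧
      Sol t.B (fun i => (t.c i).2 + t.a i () • g) := by
  rw [← sol_blk]
  have : (fun i => ((s.join t).c i).2 + (s.join t).a i () • g) =
      Sum.elim (fun i => (s.c i).2 + s.a i () • g) (fun i => (t.c i).2 + t.a i () • g) := by
    funext i
    rcases i with i | i <;> rfl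
  rw [this]
  rfl

theorem Cons.join_le_left {Γ : Submodule R (M × G)} {m₀ : M} (s t : Cons Γ m₀) :
    Sat (s.join t).a (s.join t).B G ≤ Sat s.a s.B G ⊓ Sat t.a t.B G := by
  intro g hg
  rw [mem_Sat] at hg
  have : (fun i => ∑ k, (s.join t).a i k • g k) =
      Sum.elim (fun i => ∑ k, s.a i k • g k) (fun i => ∑ k, t.a i k • g k) := by
    funext i
    rcases i with i | i <;> rfl
  rw [this] at hg
  exact (sol_blk _ _ _ _).1 hg

/-- One-step extension. -/
theorem good_step [IsArtinian (Module.End R G) G] {Γ : Submodule R (M × G)} (hΓ : Good Γ) (m₀ : M) :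
    ∃ g₀ : G, Good (Γ ⊔ Submodule.span R {((m₀, g₀) : M × G)}) := by
  classical
  -- a constraint with minimal set of differences
  let T : Set (Submodule (Module.End R G) (Unit → G)) :=
    {U | ∃ s : Cons Γ m₀, U = Sat s.a s.B G}
  have hT : T.Nonempty := by
    refine ⟨_, ⟨⟨Empty, Empty, inferInstance, inferInstance, fun i => i.elim, fun i => i.elim,
      fun i => i.elim, fun i => i.elim, ⟨fun i => i.elim, fun i => i.elim⟩⟩, rfl⟩⟩
  obtain ⟨U, ⟨s, rfl⟩, hmin⟩ := IsArtinian.set_has_minimal T hT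
  obtain ⟨g₀, hg₀⟩ := s.exists_sol hΓ
  have key : ∀ t : Cons Γ m₀, Sol t.B (fun i => (t.c i).2 + t.a i () • g₀) := by
    intro t
    obtain ⟨g₁, hg₁⟩ := (s.join t).exists_sol hΓ
    obtain ⟨h1, h2⟩ := (s.join_sol t g₁).1 hg₁
    have h3 : Sat (s.join t).a (s.join t).B G ≤ Sat s.a s.B G ⊓ Sat t.a t.B G :=
      s.join_le_left t
    have h4 : Sat (s.join t).a (s.join t).B G = Sat s.a s.B G := by
      have h5 : Sat (s.join t).a (s.join t).B G ≤ Sat s.a s.B G := h3.trans inf_le_left
      rcases h5.lt_or_eq with h | h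
      · exact (hmin _ ⟨s.join t, rfl⟩ h).elim
      · exact h
    have h5 : Sat s.a s.B G ≤ Sat t.a t.B G := by
      rw [← h4]
      exact h3.trans inf_le_right
    have h6 : (fun _ : Unit => g₀ - g₁) ∈ Sat s.a s.B G := by
      rw [mem_Sat]
      have := Sol.add hg₀ h1.neg
      convert this using 1
      funext i
      simp only [Finset.univ_unique, Finset.sum_singleton, smul_sub]
      abel
    have h7 := h5 h6
    rw [mem_Sat] at h7
    have := Sol.add h2 h7
    convert this using 1
    funext i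
    simp [smul_sub]
  refine ⟨g₀, ?_⟩
  intro α β _ _ B c hc hs
  have h1 : ∀ i, ∃ (d : M × G) (a : R), d ∈ Γ ∧ c i = d + a • ((m₀, g₀) : M × G) := by
    intro i
    obtain ⟨d, hd, z, hz, h⟩ := Submodule.mem_sup.1 (hc i)
    obtain ⟨a, rfl⟩ := Submodule.mem_span_singleton.1 hz
    exact ⟨d, a, hd, h.symm⟩
  choose d a hd hda using h1
  have h2 : Sol B (fun i => (d i).1 + a i • m₀) := by
    convert hs using 1
    funext i
    rw [hda i]
    rfl
  have h3 := key ⟨α, β, inferInstance, inferInstance, B, d, fun i _ => a i, hd, h2⟩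
  convert h3 using 1
  funext i
  rw [hda i]
  rfl

/-- Extension lemma: a good relation extends to a homomorphism. -/
theorem exists_hom [IsArtinian (Module.End R G) G] {Γ₀ : Submodule R (M × G)} (hΓ₀ : Good Γ₀) :
    ∃ h : M →ₗ[R] G, ∀ c ∈ Γ₀, h c.1 = c.2 := by
  classical
  obtain ⟨Γ, hle, hmax⟩ := zorn_le_nonempty₀ {Γ : Submodule R (M × G) | Good Γ}
    (fun S hS hc y hy => ⟨sSup S, good_sSup S hS hc ⟨y, hy⟩, fun z hz => le_sSup hz⟩) Γ₀ hΓ₀
  have hG : Good Γ := hmax.prop
  have tot : ∀ m : M, ∃ g : G, (m, g) ∈ Γ := by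
    intro m
    obtain ⟨g, hg⟩ := good_step hG m
    refine ⟨g, ?_⟩
    have h1 : Γ ⊔ Submodule.span R {((m, g) : M × G)} ≤ Γ := hmax.le_of_ge hg le_sup_left
    exact h1 (Submodule.mem_sup_right (Submodule.mem_span_singleton_self _))
  have uniq : ∀ (m : M) (g g' : G), (m, g) ∈ Γ → (m, g') ∈ Γ → g = g' := by
    intro m g g' h h'
    have h1 : ((0 : M), g - g') ∈ Γ := by
      have := Γ.sub_mem h h'
      simpa using this
    have h2 := hG Unit Empty (fun _ j => j.elim) (fun _ => ((0 : M), g - g')) (fun _ => h1)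
      ⟨fun j => j.elim, fun i => by simp⟩
    obtain ⟨y, hy⟩ := h2
    have := hy ()
    simp at this
    exact sub_eq_zero.1 this
  choose f hf using tot
  refine ⟨⟨⟨f, fun m m' => ?_⟩, fun r m => ?_⟩, fun c hc => ?_⟩
  · exact uniq _ _ _ (hf _) (by simpa using Γ.add_mem (hf m) (hf m'))
  · exact uniq _ _ _ (hf _) (by simpa using Γ.smul_mem r (hf m))
  · exact uniq _ _ _ (hf _) (hle hc)

/-- Tuple version: if all systems satisfied by `x` are satisfied by `x'`, there is a homomorphism
mapping `x` to `x'`. -/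
theorem exists_hom_tuple [IsArtinian (Module.End R G) G] {ι : Type} [Fintype ι] (x : ι → M)
    (x' : ι → G)
    (h : ∀ (α β : Type) [Fintype α] [Fintype β] (A : α → ι → R) (B : α → β → R),
      x ∈ Sat A B M → x' ∈ Sat A B G) :
    ∃ f : M →ₗ[R] G, ∀ k, f (x k) = x' k := by
  classical
  let Γ₀ : Submodule R (M × G) := Submodule.span R (Set.range fun k => ((x k, x' k) : M × G))
  have hΓ₀ : Good Γ₀ := by
    intro α β _ _ B c hc hs
    have h1 : ∀ i, ∃ a : ι → R, ∑ k, a k • ((x k, x' k) : M × G) = c i := by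
      intro i
      exact (Submodule.mem_span_range_iff_exists_fun R).1 (hc i)
    choose A hA using h1
    have h2 : x ∈ Sat A B M := by
      rw [mem_Sat]
      convert hs using 1
      funext i
      rw [← hA i]
      simp [Prod.fst_sum]
    have h3 := h α β A B h2
    rw [mem_Sat] at h3
    convert h3 using 1
    funext i
    rw [← hA i]
    simp [Prod.snd_sum]
  obtain ⟨f, hf⟩ := exists_hom hΓ₀
  exact ⟨f, fun k => hf (x k, x' k) (Submodule.subset_span ⟨k, rfl⟩)⟩

/-- The orbit of a tuple under the endomorphism ring is the solution set of one system. -/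
theorem exists_system [IsArtinian (Module.End R G) G] {ι : Type} [Fintype ι] (g : ι → G) :
    ∃ (α β : Type) (_ : Fintype α) (_ : Fintype β) (A : α → ι → R) (B : α → β → R),
      g ∈ Sat A B G ∧ ∀ y ∈ Sat A B G, ∃ e : Module.End R G, ∀ k, e (g k) = y k := by
  classical
  let T : Set (Submodule (Module.End R G) (ι → G)) :=
    {U | ∃ (α β : Type) (_ : Fintype α) (_ : Fintype β) (A : α → ι → R) (B : α → β → R),
      g ∈ Sat A B G ∧ U = Sat A B G}
  have hT : T.Nonempty := ⟨_, Empty, Empty, inferInstance, inferInstance, fun i => i.elim,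
    fun i => i.elim, ⟨fun i => i.elim, fun i => i.elim⟩, rfl⟩
  obtain ⟨U, ⟨α, β, _, _, A, B, hg, rfl⟩, hmin⟩ := IsArtinian.set_has_minimal T hT
  refine ⟨α, β, inferInstance, inferInstance, A, B, hg, fun y hy => ?_⟩
  refine exists_hom_tuple g y ?_
  intro α' β' _ _ A' B' hg'
  have h0 : ∀ z : ι → G, z ∈ Sat (Sum.elim A A') (blk B B') G ↔ z ∈ Sat A B G ∧ z ∈ Sat A' B' G := by
    intro z
    rw [mem_Sat, mem_Sat, mem_Sat, ← sol_blk]
    have : (fun i => ∑ k, (Sum.elim A A') i k • z k) =
        Sum.elim (fun i => ∑ k, A i k • z k) (fun i => ∑ k, A' i k • z k) := by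
      funext i
      rcases i with i | i <;> rfl
    rw [this]
  have h1 : Sat (Sum.elim A A') (blk B B') G ≤ Sat A B G := fun z hz => ((h0 z).1 hz).1
  have h2 : Sat (Sum.elim A A') (blk B B') G = Sat A B G := by
    rcases h1.lt_or_eq with h | h
    · exact (hmin _ ⟨_, _, inferInstance, inferInstance, Sum.elim A A', blk B B',
        (h0 g).2 ⟨hg, hg'⟩, rfl⟩ h).elim
    · exact h
  rw [← h2] at hy
  exact ((h0 y).1 hy).2

end Extension

end Pool.Agent.TH607.GW
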