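import Pool.Agent.TH607.GW.PIDef

/-! # Polynomial identities -/

set_option autoImplicit false

universe u v

namespace Pool.Agent.TH607.GW

open MulOpposite Finset

section eval

variable {A : Type u} [Ring A] {B : Type v} [Ring B]

theorem evalAt_map (φ : A →+* B) {n : ℕ} (f : List (Fin n) →₀ ℤ) (a : Fin n → A) :
    φ (evalAt f a) = evalAt f fun i => φ (a i) := by
  unfold evalAt Finsupp.sum
  rw [map_sum]
  refine Finset.sum_congr rfl fun w _ => ?_
  rw [map_zsmul, map_list_prod, List.map_map]
  rfl

/-- quotients of PI rings are PI -/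
theorem IsPI.of_surjective (φ : A →+* B) (hφ : Function.Surjective φ) (h : IsPI A) : IsPI B := by
  obtain ⟨n, f, hf, h0⟩ := h
  refine ⟨n, f, hf, fun b => ?_⟩
  choose s hs using hφ
  have h1 := evalAt_map φ f fun i => s (b i)
  rw [h0, map_zero] at h1
  simp only [hs] at h1
  exact h1.symm

/-- the reversed polynomial -/
noncomputable def rev {n : ℕ} (f : List (Fin n) →₀ ℤ) : List (Fin n) →₀ ℤ :=
  f.mapDomain List.reverse

theorem rev_apply {n : ℕ} (f : List (Fin n) →₀ ℤ) (w : List (Fin n)) :
    rev f w = f w.reverse := by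
  have h := Finsupp.mapDomain_apply (List.reverse_injective (α := Fin n)) f w.reverse
  rw [List.reverse_reverse] at h
  exact h

theorem monic_rev {n : ℕ} {f : List (Fin n) →₀ ℤ} (h : Monic f) : Monic (rev f) := by
  obtain ⟨w, h1, h2⟩ := h
  refine ⟨w.reverse, by rw [rev_apply, List.reverse_reverse, h1], fun w' hw' => ?_⟩
  rw [rev_apply] at hw'
  have := h2 _ hw'
  rw [List.length_reverse] at this ⊢
  exact this

theorem evalAt_rev {n : ℕ} (f : List (Fin n) →₀ ℤ) (a : Fin n → A) :
    op (evalAt (rev f) a) = evalAt f fun i => op (a i) := by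
  unfold evalAt rev
  rw [Finsupp.sum_mapDomain_index (by simp) (by intro b m₁ m₂; rw [add_smul])]
  unfold Finsupp.sum
  rw [show op (∑ w ∈ f.support, f w • (List.map a w.reverse).prod) =
    (opAddEquiv : A ≃+ Aᵐᵒᵖ) (∑ w ∈ f.support, f w • (List.map a w.reverse).prod) from rfl, map_sum]
  refine Finset.sum_congr rfl fun w _ => ?_
  rw [map_zsmul]
  congr 1
  show op (List.map a w.reverse).prod = _
  rw [op_list_prod, List.map_map, List.map_reverse, List.reverse_reverse]
  rfl

/-- the property is left-right symmetric -/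
theorem IsPI.of_op (e : B ≃+* Aᵐᵒᵖ) (h : IsPI A) : IsPI B := by
  obtain ⟨n, f, hf, h0⟩ := h
  refine ⟨n, rev f, monic_rev hf, fun b => ?_⟩
  apply e.injective
  rw [map_zero]
  have h1 : e (evalAt (rev f) b) = evalAt (rev f) fun i => e (b i) :=
    evalAt_map (e : B →+* Aᵐᵒᵖ) (rev f) b
  rw [h1]
  have h2 := evalAt_rev (A := Aᵐᵒᵖ) f fun i => e (b i)
  have h3 : evalAt f (fun i => op (e (b i))) = op (op (0 : A)) := by
    have h4 := evalAt_map (RingEquiv.opOp A : A →+* Aᵐᵒᵖᵐᵒᵖ) f fun i => unop (e (b i))
    rw [h0, map_zero] at h4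
    exact h4.symm
  rw [h3] at h2
  exact op_injective h2

end eval

section mul

/-- the word `w w'` in separate letters -/
def glue {n n' : ℕ} (w : List (Fin n)) (w' : List (Fin n')) : List (Fin (n + n')) :=
  w.map (Fin.castAdd n') ++ w'.map (Fin.natAdd n)

theorem glue_inj {n n' : ℕ} {w v : List (Fin n)} {w' v' : List (Fin n')}
    (h : glue w w' = glue v v') : w = v ∧ w' = v' := by
  induction w generalizing v with
  | nil =>
    cases v with
    | nil =>
      refine ⟨rfl, ?_⟩
      have : w'.map (Fin.natAdd n) = v'.map (Fin.natAdd n) := h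
      exact List.map_injective_iff.2 (Fin.natAdd_injective n' n) this
    | cons x v =>
      exfalso
      cases w' with
      | nil => simp [glue] at h
      | cons y w' =>
        have h1 : Fin.natAdd n y = Fin.castAdd n' x := by
          have := congrArg List.head? h
          simpa [glue] using this
        have := congrArg Fin.val h1
        simp at this
        omega
  | cons x w ih =>
    cases v with
    | nil =>
      exfalso
      cases v' with
      | nil => simp [glue] at h
      | cons y v' =>
        have h1 : Fin.castAdd n' x = Fin.natAdd n y := by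
          have := congrArg List.head? h
          simpa [glue] using this
        have := congrArg Fin.val h1
        simp at this
        omega
    | cons y v =>
      have h1 : Fin.castAdd n' x = Fin.castAdd n' y := by
        have := congrArg List.head? h
        simpa [glue] using this
      have h2 : glue w w' = glue v v' := by
        have := congrArg List.tail h
        simpa [glue] using this
      obtain ⟨h3, h4⟩ := ih h2
      exact ⟨by rw [Fin.castAdd_injective n n' h1, h3], h4⟩

theorem glue_length {n n' : ℕ} (w : List (Fin n)) (w' : List (Fin n')) :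
    (glue w w').length = w.length + w'.length := by
  simp [glue]

/-- the product of polynomials in separate letters -/
noncomputable def times {n n' : ℕ} (f : List (Fin n) →₀ ℤ) (g : List (Fin n') →₀ ℤ) :
    List (Fin (n + n')) →₀ ℤ :=
  ∑ w ∈ f.support, ∑ w' ∈ g.support, Finsupp.single (glue w w') (f w * g w')

theorem times_apply {n n' : ℕ} (f : List (Fin n) →₀ ℤ) (g : List (Fin n') →₀ ℤ)
    (w : List (Fin n)) (w' : List (Fin n')) : times f g (glue w w') = f w * g w' := by
  classical
  unfold times
  rw [Finsupp.finsetSum_apply]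
  by_cases hw : w ∈ f.support
  · rw [Finset.sum_eq_single w]
    · rw [Finsupp.finsetSum_apply]
      by_cases hw' : w' ∈ g.support
      · rw [Finset.sum_eq_single w']
        · rw [Finsupp.single_eq_same]
        · intro v' _ hv'
          rw [Finsupp.single_eq_of_ne]
          intro h
          exact hv' (glue_inj h).2.symm
        · intro h; exact (h hw').elim
      · rw [Finsupp.notMem_support_iff.1 hw', mul_zero]
        refine Finset.sum_eq_zero fun v' hv' => ?_
        rw [Finsupp.single_eq_of_ne]
        intro h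
        rw [(glue_inj h).2] at hw'
        exact hw' hv'
    · intro v _ hv
      rw [Finsupp.finsetSum_apply]
      refine Finset.sum_eq_zero fun v' _ => ?_
      rw [Finsupp.single_eq_of_ne]
      intro h
      exact hv (glue_inj h).1.symm
    · intro h; exact (h hw).elim
  · rw [Finsupp.notMem_support_iff.1 hw, zero_mul]
    refine Finset.sum_eq_zero fun v hv => ?_
    rw [Finsupp.finsetSum_apply]
    refine Finset.sum_eq_zero fun v' _ => ?_
    rw [Finsupp.single_eq_of_ne]
    intro h
    rw [(glue_inj h).1] at hw
    exact hw hv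

theorem exists_of_times_ne {n n' : ℕ} {f : List (Fin n) →₀ ℤ} {g : List (Fin n') →₀ ℤ}
    {u : List (Fin (n + n'))} (h : times f g u ≠ 0) : ∃ w w', f w ≠ 0 ∧ g w' ≠ 0 ∧ u = glue w w' := by
  classical
  by_contra hcon
  apply h
  unfold times
  rw [Finsupp.finsetSum_apply]
  refine Finset.sum_eq_zero fun w hw => ?_
  rw [Finsupp.finsetSum_apply]
  refine Finset.sum_eq_zero fun w' hw' => ?_
  rw [Finsupp.single_eq_of_ne]
  intro h1
  exact hcon ⟨w, w', Finsupp.mem_support_iff.1 hw, Finsupp.mem_support_iff.1 hw', h1⟩

theorem monic_times {n n' : ℕ} {f : List (Fin n) →₀ ℤ} {g : List (Fin n') →₀ ℤ} (hf : Monic f)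
    (hg : Monic g) : Monic (times f g) := by
  obtain ⟨w, h1, h2⟩ := hf
  obtain ⟨w', h1', h2'⟩ := hg
  refine ⟨glue w w', by rw [times_apply, h1, h1', one_mul], fun u hu => ?_⟩
  obtain ⟨v, v', hv, hv', rfl⟩ := exists_of_times_ne hu
  rw [glue_length, glue_length]
  exact add_le_add (h2 v hv) (h2' v' hv')

variable {A : Type u} [Ring A]

theorem evalAt_add {n : ℕ} (f g : List (Fin n) →₀ ℤ) (a : Fin n → A) :
    evalAt (f + g) a = evalAt f a + evalAt g a := by
  classical
  unfold evalAt
  exact Finsupp.sum_add_index' (by simp) (by intro w c d; rw [add_smul])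

theorem evalAt_sum {n : ℕ} {ι : Type*} (s : Finset ι) (f : ι → (List (Fin n) →₀ ℤ))
    (a : Fin n → A) : evalAt (∑ i ∈ s, f i) a = ∑ i ∈ s, evalAt (f i) a := by
  classical
  induction s using Finset.induction_on with
  | empty => simp [evalAt]
  | insert i s hi ih => rw [Finset.sum_insert hi, Finset.sum_insert hi, evalAt_add, ih]

theorem evalAt_single {n : ℕ} (w : List (Fin n)) (c : ℤ) (a : Fin n → A) :
    evalAt (Finsupp.single w c) a = c • (w.map a).prod := by
  unfold evalAt
  rw [Finsupp.sum_single_index]
  rw [zero_smul]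

theorem evalAt_times {n n' : ℕ} (f : List (Fin n) →₀ ℤ) (g : List (Fin n') →₀ ℤ)
    (a : Fin (n + n') → A) :
    evalAt (times f g) a =
      evalAt f (fun i => a (Fin.castAdd n' i)) * evalAt g (fun i => a (Fin.natAdd n i)) := by
  unfold times
  rw [evalAt_sum]
  unfold evalAt Finsupp.sum
  rw [Finset.sum_mul]
  refine Finset.sum_congr rfl fun w _ => ?_
  rw [Finset.mul_sum]
  have := evalAt_sum g.support (fun w' => Finsupp.single (glue w w') (f w * g w')) a
  unfold evalAt Finsupp.sum at this
  rw [this]
  refine Finset.sum_congr rfl fun w' _ => ?_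
  have h2 := evalAt_single (glue w w') (f w * g w') a
  unfold evalAt Finsupp.sum at h2
  rw [h2]
  unfold glue
  rw [List.map_append, List.prod_append, List.map_map, List.map_map, smul_mul_smul_comm]
  rfl

end mul

/-- PI rings modulo a nilpotent ideal are PI -/
theorem IsPI.of_nilpotent {A : Type u} [Ring A] {B : Type v} [Ring B] (φ : A →+* B) (m : ℕ)
    (hm : ∀ l : List A, l.length = m + 1 → (∀ x ∈ l, φ x = 0) → l.prod = 0) (h : IsPI B) :
    IsPI A := by
  obtain ⟨n, f, hf, h0⟩ := h
  have key : ∀ j : ℕ, ∃ (N : ℕ) (g : List (Fin N) →₀ ℤ), Monic g ∧ ∀ a : Fin N → A,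
      ∃ l : List A, l.length = j + 1 ∧ (∀ x ∈ l, φ x = 0) ∧ evalAt g a = l.prod := by
    intro j
    induction j with
    | zero =>
      refine ⟨n, f, hf, fun a => ⟨[evalAt f a], rfl, ?_, by simp⟩⟩
      intro x hx
      rw [List.mem_singleton] at hx
      rw [hx, evalAt_map, h0]
    | succ j ih =>
      obtain ⟨N, g, hg, h1⟩ := ih
      refine ⟨n + N, times f g, monic_times hf hg, fun a => ?_⟩
      obtain ⟨l, h2, h3, h4⟩ := h1 fun i => a (Fin.natAdd n i)
      refine ⟨evalAt f (fun i => a (Fin.castAdd N i)) :: l, by simp [h2], ?_, ?_⟩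
      · intro x hx
        rcases List.mem_cons.1 hx with rfl | hx
        · rw [evalAt_map, h0]
        · exact h3 x hx
      · rw [evalAt_times, h4, List.prod_cons]
  obtain ⟨N, g, hg, h1⟩ := key m
  refine ⟨N, g, hg, fun a => ?_⟩
  obtain ⟨l, h2, h3, h4⟩ := h1 a
  rw [h4, hm l h2 h3]

/-- the standard polynomial -/
noncomputable def standard (t : ℕ) : List (Fin t) →₀ ℤ :=
  ∑ σ : Equiv.Perm (Fin t), Finsupp.single (List.ofFn fun i => σ i) ((Equiv.Perm.sign σ : ℤˣ) : ℤ)

theorem monic_standard (t : ℕ) : Monic (standard t) := by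
  classical
  refine ⟨List.ofFn fun i => i, ?_, ?_⟩
  · unfold standard
    rw [Finsupp.finsetSum_apply, Finset.sum_eq_single 1]
    · simp
    · intro σ _ hσ
      rw [Finsupp.single_eq_of_ne]
      intro h
      apply hσ
      have h1 := List.ofFn_injective h
      ext i
      have := congrFun h1 i
      rw [← this]
      rfl
    · intro h; exact (h (Finset.mem_univ _)).elim
  · intro w hw
    unfold standard at hw
    rw [Finsupp.finsetSum_apply] at hw
    obtain ⟨σ, _, h1⟩ := Finset.exists_ne_zero_of_sum_ne_zero hw
    rw [Finsupp.single_apply] at h1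
    split_ifs at h1 with h2
    · rw [← h2]; simp
    · exact (h1 rfl).elim

/-- algebras generated as modules by `t` elements satisfy the standard identity of degree `t + 1` -/
theorem isPI_of_finite {k : Type v} [CommRing k] {A : Type u} [Ring A] [Algebra k A]
    [Module.Finite k A] : IsPI A := by
  classical
  obtain ⟨t, b, hb⟩ := Module.Finite.exists_fin (R := k) (M := A)
  refine ⟨t + 1, standard (t + 1), monic_standard _, fun a => ?_⟩
  let F : AlternatingMap k A A (Fin (t + 1)) :=
    MultilinearMap.alternatization (MultilinearMap.mkPiAlgebraFin k (t + 1) A)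
  have hF : ∀ c : Fin (t + 1) → A, F c = evalAt (standard (t + 1)) c := by
    intro c
    unfold standard
    rw [evalAt_sum, MultilinearMap.alternatization_apply]
    refine Finset.sum_congr rfl fun σ _ => ?_
    rw [evalAt_single, MultilinearMap.domDomCongr_apply, MultilinearMap.mkPiAlgebraFin_apply,
      List.map_ofFn]
    rfl
  rw [← hF]
  have hc : ∀ i, ∃ c : Fin t → k, a i = ∑ j, c j • b j := by
    intro i
    have h1 : a i ∈ Submodule.span k (Set.range b) := by rw [hb]; trivial
    obtain ⟨c, h2⟩ := (Submodule.mem_span_range_iff_exists_fun _).1 h1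
    exact ⟨c, h2.symm⟩
  choose c hc using hc
  have ha : a = fun i => ∑ j, c i j • b j := funext hc
  rw [ha]
  show F.toMultilinearMap (fun i => ∑ j, c i j • b j) = 0
  rw [MultilinearMap.map_sum]
  refine Finset.sum_eq_zero fun r _ => ?_
  rw [MultilinearMap.map_smul_univ]
  have h1 : F.toMultilinearMap (fun i => b (r i)) = 0 := by
    apply F.map_eq_zero_of_not_injective
    intro hinj
    have h2 : Function.Injective r := fun x y hxy => hinj (by simp only [hxy])
    have h3 := Fintype.card_le_of_injective r h2
    simp at h3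
  rw [h1, smul_zero]

end Pool.Agent.TH607.GW
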