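import Pool.Agent.TH607.GW.Main
import Pool.Agent.TH607.GW.PI

/-! # Generic wildness is left-right symmetric -/

set_option autoImplicit false

universe u v

namespace Pool.Agent.TH607.GW

open MulOpposite

/-- the endomorphism ring of a finitely generated module over an algebra finite over a noetherian
ring is PI -/
theorem isPI_end {k : Type v} {S : Type u} [CommRing k] [IsNoetherianRing k] [Ring S]
    [Algebra k S] [Module.Finite k S] {N : Type u} [AddCommGroup N] [Module S N]
    [Module.Finite S N] : IsPI (Module.End S N) := by
  classical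
  let _ : Module k N := Module.compHom N (algebraMap k S)
  have : IsScalarTower k S N := ⟨fun a s x => by
    show (a • s) • x = algebraMap k S a • s • x
    rw [Algebra.smul_def, mul_smul]⟩
  have : SMulCommClass S k N := ⟨fun s a x => by
    show s • algebraMap k S a • x = algebraMap k S a • s • x
    rw [← mul_smul, ← mul_smul, Algebra.commutes]⟩
  have : Module.Finite k N := Module.Finite.trans S N
  obtain ⟨n, b, hb⟩ := Module.Finite.exists_fin (R := S) (M := N)
  let φ : Module.End S N →ₗ[k] (Fin n → N) :=
    { toFun := fun l i => l (b i)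
      map_add' := fun _ _ => rfl
      map_smul' := fun _ _ => rfl }
  have hφ : Function.Injective φ := by
    intro l l' h
    apply LinearMap.ext_on_range hb
    intro i
    exact congrFun h i
  have : IsNoetherian k (Fin n → N) := inferInstance
  have : IsNoetherian k (Module.End S N) := isNoetherian_of_injective φ hφ
  exact isPI_of_finite (k := k)

/-- products of many elements of the Jacobson radical of the endomorphism ring of a module of finite
endolength vanish -/
theorem exists_nilpotent {R : Type u} [Ring R] {M : Type u} [AddCommGroup M] [Module R M]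
    (h : IsFiniteLength (Module.End R M) M) : ∃ m : ℕ, ∀ l : List (Module.End R M),
      l.length = m + 1 → (∀ x ∈ l, x ∈ Ring.jacobson (Module.End R M)) → l.prod = 0 := by
  obtain ⟨hn, ha⟩ := isFiniteLength_iff_isNoetherian_isArtinian.1 h
  let J := Ring.jacobson (Module.End R M)
  let V : ℕ → Submodule (Module.End R M) M := fun i =>
    Nat.rec ⊤ (fun _ W => J • W) i
  have hV : ∀ i, V (i + 1) = J • V i := fun i => rfl
  have hanti : Antitone V := antitone_nat_of_succ_le fun i => by
    rw [hV]
    exact Submodule.smul_le_right
  obtain ⟨m, hm⟩ := IsArtinian.monotone_stabilizes (⟨V, hanti⟩ : ℕ →o (Submodule _ M)ᵒᵈ)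
  have h1 : V m = ⊥ := by
    apply Submodule.FG.eq_bot_of_le_jacobson_smul (IsNoetherian.noetherian (V m))
    have h2 : V m = V (m + 1) := hm (m + 1) (Nat.le_succ m)
    conv_lhs => rw [h2, hV]
  have h2 : ∀ (l : List (Module.End R M)), (∀ x ∈ l, x ∈ J) → ∀ y : M, l.prod y ∈ V l.length := by
    intro l
    induction l with
    | nil => intro _ y; exact Submodule.mem_top
    | cons x l ih =>
      intro hx y
      rw [List.prod_cons, List.length_cons, hV]
      show x • (l.prod y) ∈ J • V l.length
      exact Submodule.smul_mem_smul (hx x List.mem_cons_self)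
        (ih (fun z hz => hx z (List.mem_cons_of_mem _ hz)) y)
  refine ⟨m, fun l hl hx => LinearMap.ext fun y => ?_⟩
  have h3 := h2 l hx y
  have h4 : V l.length ≤ V m := hanti (by omega)
  have h5 := h4 h3
  rw [h1] at h5
  exact (Submodule.mem_bot _).1 h5

/-- a ring modulo its Jacobson radical is PI if and only if the ring is, for endomorphism rings of
modules of finite endolength -/
theorem isPI_iff_residue {R : Type u} [Ring R] {M : Type u} [AddCommGroup M] [Module R M]
    (h : IsFiniteLength (Module.End R M) M) :
    IsPI (Module.End R M) ↔ IsPI (Module.End R M ⧸ Ring.jacobson (Module.End R M)) := by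
  constructor
  · exact IsPI.of_surjective (Ideal.Quotient.mk _) Ideal.Quotient.mk_surjective
  · obtain ⟨m, hm⟩ := exists_nilpotent h
    refine IsPI.of_nilpotent (Ideal.Quotient.mk _) m fun l hl hx => hm l hl fun x hxl => ?_
    exact Ideal.Quotient.eq_zero_iff_mem.1 (hx x hxl)

/-- transfer of generic wildness to an opposite ring -/
theorem wild_transfer {k : Type v} {R S : Type u} [CommRing k] [IsNoetherianRing k] [Ring R]
    [Ring S] [Algebra k S] [Module.Finite k S] (e : S ≃+* Rᵐᵒᵖ) (h : GenericallyWild R) :
    GenericallyWild S := by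
  obtain ⟨G, _, _, hG, hw⟩ := h
  have := hG.nontrivial
  obtain ⟨N, _, _, hnt, hloc, hfl, ⟨ρ⟩⟩ := transfer e hG.indecomposable hG.finiteEndolength
  have h5 : ¬ IsPI (Module.End S N) := by
    intro h
    apply hw
    rw [isPI_iff_residue hG.finiteEndolength]
    rw [isPI_iff_residue hfl] at h
    exact IsPI.of_op (RingEquiv.opOp _ |>.trans (RingEquiv.op ρ.symm)) h
  exact ⟨N, inferInstance, inferInstance,
    ⟨hnt, indec_of_local hloc, hfl, fun h => h5 (isPI_end (k := k))⟩, h5⟩

/-- generic wildness is left-right symmetric -/
theorem wild_symm (k : Type v) [CommRing k] [IsNoetherianRing k] (R : Type u) [Ring R]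
    [Algebra k R] [Module.Finite k R] : GenericallyWild R ↔ GenericallyWild Rᵐᵒᵖ := by
  have : Module.Finite k Rᵐᵒᵖ := Module.Finite.equiv (MulOpposite.opLinearEquiv k : R ≃ₗ[k] Rᵐᵒᵖ)
  exact ⟨wild_transfer (k := k) (RingEquiv.refl Rᵐᵒᵖ), wild_transfer (k := k) (RingEquiv.opOp R)⟩

end Pool.Agent.TH607.GW
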