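import Pool.Agent.TH607.GW.Loc

/-!
(Copy of the file of helper215 in `Pool/Agent/GW215/`, with an arbitrary universe.)

Indecomposable modules of finite endolength: locality of the endomorphism ring by double duality, and
the transfer to the other side.
-/

set_option autoImplicit false

universe u

namespace Pool.Agent.TH607.GW

open scoped BigOperators
open MulOpposite

variable {R S : Type u} [Ring R] [Ring S]

/-- the opposite identification. -/
def opE (e : S ≃+* Rᵐᵒᵖ) : R ≃+* Sᵐᵒᵖ := (RingEquiv.opOp R).trans (RingEquiv.op e.symm)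

theorem unop_opE (e : S ≃+* Rᵐᵒᵖ) (r : R) : unop (opE e r) = sg e r := rfl

section

variable {e : S ≃+* Rᵐᵒᵖ} {N I' : Type u} [AddCommGroup N] [Module S N] [AddCommGroup I']
  [Module (Module.End S N) I']

theorem ev_smul_op (r : R) (x : Dual (opE e) N I') (z : N) : (r • x).ev z = x.ev (sg e r • z) := rfl

/-- Systems in the second dual. -/
theorem sat_second (hI' : Module.Baer (Module.End S N) I') {α β : Type} [Fintype α] [Fintype β]
    (a : α → Unit → R) (B : α → β → R) (x : Dual (opE e) N I') :
    (fun _ : Unit => x) ∈ Sat a B (Dual (opE e) N I') ↔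
      ∀ z : N, DSat e a B (fun _ : Unit => z) → x.ev z = 0 := by
  classical
  rw [mem_Sat]
  constructor
  · rintro ⟨y, hy⟩ z ⟨w, h1, h2⟩
    have h3 : ∀ i, a i () • x = ∑ j, B i j • y j := by
      intro i
      simpa using hy i
    have h1' : z = ∑ i, sg e (a i ()) • w i := h1 ()
    calc x.ev z = ∑ i, (a i () • x).ev (w i) := by
          rw [h1', map_sum]
          rfl
      _ = ∑ i, ∑ j, (y j).ev (sg e (B i j) • w i) := by
          refine Finset.sum_congr rfl fun i _ => ?_
          rw [h3 i, Dual.ev_sum]
          rfl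
      _ = ∑ j, (y j).ev (∑ i, sg e (B i j) • w i) := by
          rw [Finset.sum_comm]
          simp [map_sum]
      _ = 0 := by simp [h2]
  · intro h
    let f : (α → N) →ₗ[Module.End S N] (β → N) :=
      LinearMap.pi fun j => ∑ i, mulR (sg e (B i j)) ∘ₗ LinearMap.proj i
    let g : (α → N) →ₗ[Module.End S N] I' :=
      x.ev ∘ₗ ∑ i, mulR (sg e (a i ())) ∘ₗ LinearMap.proj i
    have hf : ∀ w j, f w j = ∑ i, sg e (B i j) • w i := by
      intro w j
      simp [f]
    have hg : ∀ w, g w = x.ev (∑ i, sg e (a i ()) • w i) := by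
      intro w
      simp [g]
    obtain ⟨q, hq⟩ := baer_factor hI' f g (by
      intro w hw
      rw [hg]
      apply h
      refine ⟨w, fun _ => rfl, fun j => ?_⟩
      rw [← hf]
      exact congrFun hw j)
    let y : β → Dual (opE e) N I' := fun j =>
      (q ∘ₗ LinearMap.single (Module.End S N) (fun _ => N) j : N →ₗ[Module.End S N] I')
    refine ⟨y, fun i => ?_⟩
    simp only [Finset.univ_unique, Finset.sum_singleton]
    apply Dual.ext
    intro z
    rw [Dual.ev_sum]
    have h1 : f (Pi.single i z) = ∑ j, Pi.single j (sg e (B i j) • z) := by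
      rw [Finset.univ_sum_single (fun j => sg e (B i j) • z)]
      funext j
      rw [hf, Finset.sum_eq_single i]
      · simp
      · intro b _ hb
        simp [hb]
      · simp
    have h2 : ∑ j, (B i j • y j).ev z = q (f (Pi.single i z)) := by
      rw [h1, map_sum]
      rfl
    rw [h2, hq, hg, Finset.sum_eq_single i]
    · simp
      rfl
    · intro b _ hb
      simp [hb]
    · simp

end

/-- The main construction: the dual of an indecomposable module of finite endolength. -/
theorem transfer (e : S ≃+* Rᵐᵒᵖ) {G : Type u} [AddCommGroup G] [Module R G] [Nontrivial G]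
    (hind : ∀ N₁ N₂ : Submodule R G, IsCompl N₁ N₂ → N₁ = ⊥ ∨ N₂ = ⊥)
    (hfl : IsFiniteLength (Module.End R G) G) :
    ∃ (N : Type u) (_ : AddCommGroup N) (_ : Module S N), Nontrivial N ∧
      (∀ l : Module.End S N, IsUnit l ∨ IsUnit (1 - l)) ∧
      IsFiniteLength (Module.End S N) N ∧
      Nonempty ((Module.End S N ⧸ Ring.jacobson (Module.End S N)) ≃+*
        (Module.End R G ⧸ Ring.jacobson (Module.End R G))ᵐᵒᵖ) := by
  classical
  obtain ⟨hnoeth, hart⟩ := isFiniteLength_iff_isNoetherian_isArtinian.1 hfl
  -- a simple submodule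
  obtain ⟨V, hV⟩ := IsAtomic.exists_atom (Submodule (Module.End R G) G)
  obtain ⟨g₀, hg₀V, hg₀⟩ := Submodule.exists_mem_ne_zero_of_ne_bot hV.1
  have hsimple : ∀ g ∈ V, g ≠ 0 → ∃ a : Module.End R G, a • g = g₀ := by
    intro g hg hne
    have h1 : Submodule.span (Module.End R G) {g} = V := by
      have h2 : Submodule.span (Module.End R G) {g} ≤ V := by
        rw [Submodule.span_singleton_le_iff_mem]
        exact hg
      rcases h2.lt_or_eq with h | h
      · have := hV.2 _ h
        rw [Submodule.span_singleton_eq_bot] at this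
        exact (hne this).elim
      · exact h
    have h3 : g₀ ∈ Submodule.span (Module.End R G) {g} := by rw [h1]; exact hg₀V
    exact Submodule.mem_span_singleton.1 h3
  obtain ⟨I, _, _, hI, i, hi, hess⟩ := exists_hull (Module.End R G) V ⟨g₀, hg₀V⟩ (by
    rintro ⟨w, hw⟩ hne
    obtain ⟨a, ha⟩ := hsimple w hw (fun h => hne (Subtype.ext h))
    exact ⟨a, Subtype.ext ha⟩)
  obtain ⟨v, hvdef⟩ : ∃ v, v = i ⟨g₀, hg₀V⟩ := ⟨_, rfl⟩
  rw [← hvdef] at hess
  have hv : v ≠ 0 := by
    intro h
    rw [hvdef, ← map_zero i] at h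
    exact hg₀ (congrArg Subtype.val (hi h))
  obtain ⟨q₀, hq₀⟩ := baer_factor hI V.subtype i (by
    intro x hx
    have : x = 0 := Subtype.ext hx
    rw [this, map_zero])
  let z₀ : Dual e G I := q₀
  have hz₀ : z₀.ev g₀ = v := by rw [hvdef]; exact hq₀ ⟨g₀, hg₀V⟩
  -- the dual
  have hNfl : IsFiniteLength (Module.End S (Dual e G I)) (Dual e G I) := dual_finiteLength hfl hI
  have hLloc := local_dual hI hv hess hz₀
  obtain ⟨hNnoeth, hNart⟩ := isFiniteLength_iff_isNoetherian_isArtinian.1 hNfl
  -- the submodule of functionals vanishing at `g₀`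
  let K : Submodule (Module.End S (Dual e G I)) (Dual e G I) :=
    { carrier := {z | z.ev g₀ = 0}
      add_mem' := fun {z z'} h h' => by
        show z.ev g₀ + z'.ev g₀ = 0
        rw [h, h', add_zero]
      zero_mem' := rfl
      smul_mem' := fun l z h => by
        obtain ⟨θ, rfl⟩ := exists_post hI l
        show θ (z.ev g₀) = 0
        rw [h, map_zero] }
  have hKmem : ∀ z, z ∈ K ↔ z.ev g₀ = 0 := fun z => Iff.rfl
  obtain ⟨I', _, _, hI', i', hi', hess'⟩ := exists_hull (Module.End S (Dual e G I))
    (Dual e G I ⧸ K) (K.mkQ z₀) (by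
      intro w hw
      obtain ⟨z, rfl⟩ := K.mkQ_surjective w
      have hz : z.ev g₀ ≠ 0 := by
        intro h
        apply hw
        rw [Submodule.mkQ_apply, Submodule.Quotient.mk_eq_zero]
        exact h
      obtain ⟨θ, hθ⟩ := baer_factor hI (LinearMap.toSpanSingleton (Module.End R G) I (z.ev g₀))
        (LinearMap.toSpanSingleton (Module.End R G) I v) (by
          intro a ha
          rw [LinearMap.toSpanSingleton_apply] at ha ⊢
          have h1 : z.ev (a g₀) = 0 := by rw [Dual.ev_endo]; exact ha
          have h2 : a g₀ = 0 := by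
            by_contra hne
            obtain ⟨b, hb⟩ := hsimple (a g₀) (V.smul_mem a hg₀V) hne
            apply hz
            have h3 : z.ev g₀ = b • z.ev (a g₀) := by
              rw [← Dual.ev_endo]
              congr 1
              exact hb.symm
            rw [h3, h1, smul_zero]
          rw [← hz₀, ← Dual.ev_endo, h2, map_zero])
      refine ⟨post e θ, ?_⟩
      rw [← map_smul, Submodule.mkQ_apply, Submodule.mkQ_apply, Submodule.Quotient.eq, hKmem]
      show θ (z.ev g₀) - z₀.ev g₀ = 0
      have := hθ 1
      rw [LinearMap.toSpanSingleton_apply, LinearMap.toSpanSingleton_apply, one_smul, one_smul] at this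
      rw [this, hz₀, sub_self])
  let x' : Dual (opE e) (Dual e G I) I' :=
    (i' ∘ₗ K.mkQ : Dual e G I →ₗ[Module.End S (Dual e G I)] I')
  have hx' : ∀ z, x'.ev z = 0 ↔ z.ev g₀ = 0 := by
    intro z
    rw [← hKmem, ← Submodule.Quotient.mk_eq_zero K]
    constructor
    · intro h
      apply hi'
      rw [map_zero]
      exact h
    · intro h
      show i' (K.mkQ z) = 0
      rw [Submodule.mkQ_apply, h, map_zero]
  have hv' : i' (K.mkQ z₀) ≠ 0 := by
    intro h
    have := (hx' z₀).1 h
    rw [hz₀] at this
    exact hv this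
  have hG'fl : IsFiniteLength (Module.End R (Dual (opE e) (Dual e G I) I'))
      (Dual (opE e) (Dual e G I) I') := dual_finiteLength hNfl hI'
  have hE'loc := local_dual (e := opE e) hI' hv' hess' (z₀ := x') (g₀ := z₀) rfl
  obtain ⟨hG'noeth, hG'art⟩ := isFiniteLength_iff_isNoetherian_isArtinian.1 hG'fl
  -- equality of types
  have htype : ∀ (α β : Type) [Fintype α] [Fintype β] (a : α → Unit → R) (B : α → β → R),
      (fun _ : Unit => g₀) ∈ Sat a B G ↔
        (fun _ : Unit => x') ∈ Sat a B (Dual (opE e) (Dual e G I) I') := by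
    intro α β _ _ a B
    rw [sat_second hI']
    constructor
    · intro hg z hz
      rw [hx']
      have := hz.perp hg
      simpa using this
    · intro h
      by_contra hg
      -- the functional killing the solution set, nonzero at `g₀`
      let X : Submodule (Module.End R G) G :=
        { carrier := {g | (fun _ : Unit => g) ∈ Sat a B G}
          add_mem' := fun {g g'} h h' => (Sat a B G).add_mem h h'
          zero_mem' := (Sat a B G).zero_mem
          smul_mem' := fun f g h => (Sat a B G).smul_mem f h }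
      have hX : ∀ g, g ∈ X ↔ (fun _ : Unit => g) ∈ Sat a B G := fun g => Iff.rfl
      obtain ⟨q, hq⟩ := baer_factor hI
        (X.subtype.coprod (LinearMap.toSpanSingleton (Module.End R G) G g₀))
        ((0 : X →ₗ[Module.End R G] I).coprod (LinearMap.toSpanSingleton (Module.End R G) I v)) (by
          rintro ⟨x, b⟩ hxb
          simp only [LinearMap.coprod_apply, Submodule.subtype_apply,
            LinearMap.toSpanSingleton_apply, LinearMap.zero_apply, zero_add] at hxb ⊢
          have h1 : b • g₀ = -(x : G) := by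
            rw [eq_neg_iff_add_eq_zero, add_comm]
            exact hxb
          have h2 : b • g₀ ∈ X := by rw [h1]; exact X.neg_mem x.2
          have h3 : b • g₀ = 0 := by
            by_contra hne
            obtain ⟨c, hc⟩ := hsimple (b • g₀) (V.smul_mem b hg₀V) hne
            apply hg
            rw [← hX, ← hc]
            exact X.smul_mem c h2
          rw [← hz₀, ← Dual.ev_endo]
          show z₀.ev (b • g₀) = 0
          rw [h3, map_zero])
      have hq1 : ∀ x : X, q (x : G) = 0 := by
        intro x
        have := hq (x, 0)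
        simpa using this
      have hq2 : q g₀ = v := by
        have := hq (0, 1)
        simpa using this
      let z : Dual e G I := q
      have hz : DSat e a B (fun _ : Unit => z) := by
        refine dsat_of_perp hI fun y hy => ?_
        simp only [Finset.univ_unique, Finset.sum_singleton]
        exact hq1 ⟨y (), hy⟩
      have := (hx' z).1 (h z hz)
      apply hv
      rw [← hq2]
      exact this
  obtain ⟨π, hπ⟩ := exists_hom_tuple (R := R) (M := G) (G := Dual (opE e) (Dual e G I) I')
    (fun _ : Unit => g₀) (fun _ => x') (fun α β _ _ A B h => (htype α β A B).1 h)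
  obtain ⟨ι, hι⟩ := exists_hom_tuple (R := R) (M := Dual (opE e) (Dual e G I) I') (G := G)
    (fun _ : Unit => x') (fun _ => g₀) (fun α β _ _ A B h => (htype α β A B).2 h)
  have hπ0 : π g₀ = x' := hπ ()
  have hι0 : ι x' = g₀ := hι ()
  have hx'0 : x' ≠ 0 := by
    intro h
    apply hv'
    have := congrArg (fun x => Dual.ev x z₀) h
    exact this
  -- `π ∘ ι` is a unit
  have hunit : IsUnit (π ∘ₗ ι : Module.End R (Dual (opE e) (Dual e G I) I')) := by
    rcases hE'loc (π ∘ₗ ι : Module.End R (Dual (opE e) (Dual e G I) I')) with h | h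
    · exact h
    · exfalso
      obtain ⟨u, hu⟩ := h
      apply hx'0
      have h1 : (u : Module.End R (Dual (opE e) (Dual e G I) I')) x' = 0 := by
        rw [hu]
        show x' - π (ι x') = 0
        rw [hι0, hπ0, sub_self]
      have h2 : (↑u⁻¹ : Module.End R (Dual (opE e) (Dual e G I) I'))
          ((u : Module.End R (Dual (opE e) (Dual e G I) I')) x') = x' :=
        LinearMap.congr_fun u.inv_mul x'
      rw [h1, map_zero] at h2
      exact h2.symm
  obtain ⟨u, hu⟩ := hunit
  obtain ⟨ψ, hψ1, hψ2⟩ : ∃ ψ : Module.End R (Dual (opE e) (Dual e G I) I'),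
      (∀ x, π (ι (ψ x)) = x) ∧ ∀ x, ψ (π (ι x)) = x := by
    refine ⟨↑u⁻¹, fun x => ?_, fun x => ?_⟩
    · have := LinearMap.congr_fun u.mul_inv x
      rw [hu] at this
      exact this
    · have := LinearMap.congr_fun u.inv_mul x
      rw [hu] at this
      exact this
  have hcompl : IsCompl (LinearMap.range ι) (LinearMap.ker π) := by
    constructor
    · rw [Submodule.disjoint_def]
      rintro _ ⟨y, rfl⟩ hy
      have : y = 0 := by
        rw [← hψ2 y, LinearMap.mem_ker.1 hy, map_zero]
      rw [this, map_zero]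
    · rw [codisjoint_iff, eq_top_iff]
      intro g _
      refine Submodule.mem_sup.2 ⟨ι (ψ (π g)), ⟨_, rfl⟩, g - ι (ψ (π g)), ?_, by abel⟩
      rw [LinearMap.mem_ker, map_sub, hψ1, sub_self]
  have hker : LinearMap.ker π = ⊥ := by
    rcases hind _ _ hcompl with h | h
    · exfalso
      have h1 : g₀ ∈ LinearMap.range ι := ⟨x', hι0⟩
      rw [h] at h1
      exact hg₀ (by simpa using h1)
    · exact h
  let Pe : G ≃ₗ[R] Dual (opE e) (Dual e G I) I' :=
    LinearEquiv.ofBijective π ⟨LinearMap.ker_eq_bot.1 hker, fun x => ⟨ι (ψ x), hψ1 x⟩⟩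
  have hEloc : ∀ a : Module.End R G, IsUnit a ∨ IsUnit (1 - a) := by
    intro a
    have h1 := hE'loc (Pe.conjRingEquiv a)
    rcases h1 with h | h
    · left
      exact (MulEquiv.isUnit_map Pe.conjRingEquiv).1 h
    · right
      have h2 : (1 : Module.End R (Dual (opE e) (Dual e G I) I')) - Pe.conjRingEquiv a =
          Pe.conjRingEquiv (1 - a) := by rw [map_sub, map_one]
      rw [h2] at h
      exact (MulEquiv.isUnit_map Pe.conjRingEquiv).1 h
  refine ⟨Dual e G I, inferInstance, inferInstance, ?_, hLloc, hNfl, ?_⟩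
  · refine ⟨⟨z₀, 0, fun h => hv ?_⟩⟩
    rw [← hz₀, h]
    rfl
  · have : Nontrivial (Module.End R G) := by
      refine ⟨⟨1, 0, fun h => hg₀ ?_⟩⟩
      exact LinearMap.congr_fun h g₀
    exact residue hEloc hI hv hess hz₀

/-- Modules with local endomorphism ring are indecomposable. -/
theorem indec_of_local {N : Type u} [AddCommGroup N] [Module S N]
    (h : ∀ l : Module.End S N, IsUnit l ∨ IsUnit (1 - l)) (N₁ N₂ : Submodule S N)
    (hc : IsCompl N₁ N₂) : N₁ = ⊥ ∨ N₂ = ⊥ := by
  let p : Module.End S N := N₁.projection N₂ hc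
  have h1 : ∀ x ∈ N₂, p x = 0 := by
    intro x hx
    exact (Submodule.projection_apply_eq_zero_iff hc).2 hx
  have h2 : ∀ x ∈ N₁, p x = x := by
    intro x hx
    exact Submodule.projection_apply_of_mem_left hc hx
  rcases h p with h | h
  · right
    rw [eq_bot_iff]
    intro x hx
    obtain ⟨u, hu⟩ := h
    have h3 : (u : Module.End S N) x = 0 := by rw [hu]; exact h1 x hx
    have h4 : (↑u⁻¹ : Module.End S N) ((u : Module.End S N) x) = x := LinearMap.congr_fun u.inv_mul x
    rw [h3, map_zero] at h4
    exact h4.symm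
  · left
    rw [eq_bot_iff]
    intro x hx
    obtain ⟨u, hu⟩ := h
    have h3 : (u : Module.End S N) x = 0 := by
      rw [hu]
      show x - p x = 0
      rw [h2 x hx, sub_self]
    have h4 : (↑u⁻¹ : Module.End S N) ((u : Module.End S N) x) = x := LinearMap.congr_fun u.inv_mul x
    rw [h3, map_zero] at h4
    exact h4.symm

end Pool.Agent.TH607.GW
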