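import Mathlib

/-!
# Generic modules, polynomial identities and generic wildness: definitions

Right modules over `R` are left modules over the opposite ring `Rᵐᵒᵖ`.
-/

set_option autoImplicit false

universe u v

namespace Pool.Agent.TH607.GW

/-- The value at `a` of the noncommutative polynomial `f` in `n` variables over `ℤ`; it is given by
the coefficients `f w` of the words `w` in the letters `0, …, n - 1`. -/
def evalAt {A : Type u} [Ring A] {n : ℕ} (f : List (Fin n) →₀ ℤ) (a : Fin n → A) : A :=
  f.sum fun w c => c • (w.map a).prod

/-- Some word of the largest length which occurs in `f` has the coefficient `1`. -/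
def Monic {n : ℕ} (f : List (Fin n) →₀ ℤ) : Prop :=
  ∃ w, f w = 1 ∧ ∀ w', f w' ≠ 0 → w'.length ≤ w.length

/-- `A` is PI: it satisfies a polynomial identity over `ℤ` with a monomial of highest degree with
coefficient `1`. -/
def IsPI (A : Type u) [Ring A] : Prop :=
  ∃ (n : ℕ) (f : List (Fin n) →₀ ℤ), Monic f ∧ ∀ a : Fin n → A, evalAt f a = 0

/-- `M` is a generic `R`-module: indecomposable, of finite length over its endomorphism ring and not
finitely generated. -/
structure IsGeneric (R : Type u) [Ring R] (M : Type v) [AddCommGroup M] [Module R M] : Prop where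
  /-- `M` is not zero -/
  nontrivial : Nontrivial M
  /-- `M` is not the direct sum of two nonzero submodules -/
  indecomposable : ∀ N₁ N₂ : Submodule R M, IsCompl N₁ N₂ → N₁ = ⊥ ∨ N₂ = ⊥
  /-- finite endolength -/
  finiteEndolength : IsFiniteLength (Module.End R M) M
  /-- `M` is not finitely generated -/
  notFinite : ¬ Module.Finite R M

/-- Some generic (left) `R`-module has an endomorphism ring which is not PI. -/
def GenericallyWild (R : Type u) [Ring R] : Prop :=
  ∃ (G : Type u) (_ : AddCommGroup G) (_ : Module R G),
    IsGeneric R G ∧ ¬ IsPI (Module.End R G)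

end Pool.Agent.TH607.GW
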